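import Pool.Agent.H223.EM.Defs

set_option autoImplicit false

/-!
Task T2 (`E2_series`) of the eighth moment project of helper223.
-/

namespace Pool.Agent.H51R2.EM

open Pool.Agent.H306R2 Pool.Agent.H306R2.SM Pool.Agent.H223.EM
open Finset Filter Topology MeasureTheory Complex

noncomputable section

/-- the L-series of a residue class -/
lemma single_series (h : ℕ) [NeZero h] (a : ZMod h) (s : ℂ) (hs : 1 < s.re) :
    LSeriesHasSum (fun n : ℕ => if (n : ZMod h) = a then (1 : ℂ) else 0) s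
      ((h : ℂ) ^ (-s) * HurwitzZeta.hurwitzZeta (ZMod.toAddCircle a) s) := by
  have h1 := (ZMod.LSeriesSummable_of_one_lt_re
    (fun j : ZMod h => if j = a then (1 : ℂ) else 0) hs).LSeriesHasSum
  rw [← ZMod.LFunction_eq_LSeries (fun j : ZMod h => if j = a then (1 : ℂ) else 0) hs] at h1
  have h2 : ZMod.LFunction (fun j : ZMod h => if j = a then (1 : ℂ) else 0) s =
      (h : ℂ) ^ (-s) * HurwitzZeta.hurwitzZeta (ZMod.toAddCircle a) s := by
    simp [ZMod.LFunction]
  rw [h2] at h1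
  exact h1

/-- T2, general coefficients -/
theorem E2_series_gen (h : ℕ) [NeZero h] (Φ : ZMod h → ZMod h → ℂ) (s : ℂ) (hs : 1 < s.re) :
    LSeriesHasSum (fun n : ℕ => ∑ x ∈ n.divisorsAntidiagonal, Φ (x.1 : ZMod h) (x.2 : ZMod h)) s
      (E2 h Φ s) := by
  classical
  have hh : (h : ℂ) ≠ 0 := by exact_mod_cast NeZero.ne h
  set dl : ZMod h → ℕ → ℂ := fun a n => if (n : ZMod h) = a then (1 : ℂ) else 0 with hdl
  have hsum : ∀ a b : ZMod h, LSeriesHasSum (LSeries.convolution (dl a) (dl b)) s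
      (((h : ℂ) ^ (-s) * HurwitzZeta.hurwitzZeta (ZMod.toAddCircle a) s) *
        ((h : ℂ) ^ (-s) * HurwitzZeta.hurwitzZeta (ZMod.toAddCircle b) s)) :=
    fun a b => (single_series h a s hs).convolution (single_series h b s hs)
  have hall : LSeriesHasSum (∑ a : ZMod h, ∑ b : ZMod h,
      Φ a b • (LSeries.convolution (dl a) (dl b))) s (∑ a : ZMod h, ∑ b : ZMod h,
      Φ a b * (((h : ℂ) ^ (-s) * HurwitzZeta.hurwitzZeta (ZMod.toAddCircle a) s) *
        ((h : ℂ) ^ (-s) * HurwitzZeta.hurwitzZeta (ZMod.toAddCircle b) s))) := by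
    refine LSeriesHasSum.sum fun a _ => LSeriesHasSum.sum fun b _ => ?_
    exact (hsum a b).smul (Φ a b)
  have hval : (∑ a : ZMod h, ∑ b : ZMod h,
      Φ a b * (((h : ℂ) ^ (-s) * HurwitzZeta.hurwitzZeta (ZMod.toAddCircle a) s) *
        ((h : ℂ) ^ (-s) * HurwitzZeta.hurwitzZeta (ZMod.toAddCircle b) s))) = E2 h Φ s := by
    unfold E2
    have hp : (h : ℂ) ^ (-(2 * s)) = (h : ℂ) ^ (-s) * (h : ℂ) ^ (-s) := by
      rw [← Complex.cpow_add _ _ hh]
      congr 1; ring
    rw [hp, Finset.mul_sum]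
    refine Finset.sum_congr rfl fun a _ => ?_
    rw [Finset.mul_sum]
    refine Finset.sum_congr rfl fun b _ => ?_
    ring
  rw [hval] at hall
  refine (LSeriesHasSum_congr s (E2 h Φ s) ?_).mp hall
  intro n _
  have hconv : ∀ a b : ZMod h, (LSeries.convolution (dl a) (dl b)) n =
      ∑ x ∈ n.divisorsAntidiagonal, dl a x.1 * dl b x.2 := by
    intro a b
    simp only [LSeries.convolution_def]
  have hcomm : (∑ a : ZMod h, ∑ b : ZMod h,
      Φ a b • (LSeries.convolution (dl a) (dl b))) n = ∑ a : ZMod h, ∑ b : ZMod h,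
      ∑ x ∈ n.divisorsAntidiagonal, Φ a b * (dl a x.1 * dl b x.2) := by
    simp only [Finset.sum_apply, Pi.smul_apply, smul_eq_mul, hconv, Finset.mul_sum]
  rw [hcomm]
  have e1 : ∀ a : ZMod h, (∑ b : ZMod h, ∑ x ∈ n.divisorsAntidiagonal,
      Φ a b * (dl a x.1 * dl b x.2)) =
      ∑ x ∈ n.divisorsAntidiagonal, Φ a (x.2 : ZMod h) * dl a x.1 := by
    intro a
    rw [Finset.sum_comm]
    refine Finset.sum_congr rfl fun x _ => ?_
    simp only [hdl, mul_ite, mul_one, mul_zero, Finset.sum_ite_eq, Finset.mem_univ, if_true]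
  rw [Finset.sum_congr rfl (fun a _ => e1 a), Finset.sum_comm]
  refine Finset.sum_congr rfl fun x _ => ?_
  simp only [hdl, mul_ite, mul_one, mul_zero, Finset.sum_ite_eq, Finset.mem_univ, if_true]

/-- T2. Dirichlet series. -/
theorem E2_series (h : ℕ) [NeZero h] (u : ZMod h) (s : ℂ) (hs : 1 < s.re) :
    LSeriesHasSum (fun n : ℕ => ((d2 n : ℝ) : ℂ) * ZMod.stdAddChar (-(u * (n : ZMod h)))) s
      (E2 h (Pu h u) s) := by
  refine (LSeriesHasSum_congr s (E2 h (Pu h u) s) ?_).mp (E2_series_gen h (Pu h u) s hs)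
  intro n _
  have e1 : ∀ x ∈ n.divisorsAntidiagonal, Pu h u (x.1 : ZMod h) (x.2 : ZMod h) =
      ZMod.stdAddChar (-(u * (n : ZMod h))) := by
    intro x hx
    have h1 := (Nat.mem_divisorsAntidiagonal.1 hx).1
    unfold Pu
    rw [← h1, Nat.cast_mul, mul_assoc]
  have hc : n.divisorsAntidiagonal.card = n.divisors.card := by
    rw [← Nat.map_div_right_divisors, Finset.card_map]
  rw [Finset.sum_congr rfl e1, Finset.sum_const, nsmul_eq_mul, hc]
  unfold d2
  push_cast
  rfl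

end

end Pool.Agent.H51R2.EM
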