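import Mathlib
import Pool.Agent.H292R2.Leh.Defs

/-! Roots of unity in the fields generated by the roots of an irreducible monic polynomial. -/

open Polynomial

namespace Pool.Agent.H51R2.LehL

open Pool.Agent.H292R2.Leh

/-- rational form of `f` -/
noncomputable def toQ (f : ℤ[X]) : ℚ[X] := f.map (Int.castRingHom ℚ)

theorem toQ_irr (f : ℤ[X]) (hm : f.Monic) (hirr : Irreducible f) : Irreducible (toQ f) := by
  have h := (Polynomial.Monic.irreducible_iff_irreducible_map_fraction_map (K := ℚ) hm).mp hirr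
  exact h

theorem toQ_monic (f : ℤ[X]) (hm : f.Monic) : (toQ f).Monic := hm.map _

theorem root_iff {L : Type*} [Field L] [Algebra ℚ L] (f : ℤ[X]) (a : L) :
    aeval a (toQ f) = eval a (f.map (Int.castRingHom L)) := by
  unfold toQ
  rw [aeval_def, eval₂_map, eval_map]
  congr 1
  exact RingHom.ext_int _ _

/-- if the field generated by a root contains a primitive `p`-th root of unity, then it is a
polynomial in the root -/
theorem exists_poly (f : ℤ[X]) (hm : f.Monic) (hirr : Irreducible f) (p : ℕ) (hp : p.Prime)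
    (h : ¬ NoTors f p) : ∃ q : ℚ[X], toQ f ∣ (cyclotomic p ℚ).comp q := by
  unfold NoTors at h
  push Not at h
  obtain ⟨α, hα, ζ, hζ, hprim⟩ := h
  have hroot : aeval α (toQ f) = 0 := by
    rw [root_iff]; exact hα
  have hint : IsIntegral ℚ α := ⟨toQ f, toQ_monic f hm, by rwa [aeval_def] at hroot⟩
  rw [← IntermediateField.mem_toSubalgebra,
    IntermediateField.adjoin_simple_toSubalgebra_of_isAlgebraic hint.isAlgebraic,
    Algebra.adjoin_singleton_eq_range_aeval] at hζ
  obtain ⟨q, hq⟩ := hζ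
  have hq' : aeval α q = ζ := hq
  refine ⟨q, ?_⟩
  have hmin : minpoly ℚ α = toQ f :=
    (minpoly.eq_of_irreducible_of_monic (toQ_irr f hm hirr) hroot (toQ_monic f hm)).symm
  rw [← hmin]
  apply minpoly.dvd
  rw [aeval_comp, hq']
  have h1 := hprim.isRoot_cyclotomic hp.pos
  rw [IsRoot.def, ← map_cyclotomic p (algebraMap ℚ ℂ), eval_map_algebraMap] at h1
  exact h1

/-- the same polynomial gives a primitive root of unity at every root -/
theorem prim_of_poly {L : Type*} [Field L] [Algebra ℚ L] (f : ℤ[X]) (p : ℕ) (hp : p.Prime)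
    (q : ℚ[X]) (hq : toQ f ∣ (cyclotomic p ℚ).comp q) (a : L) (ha : aeval a (toQ f) = 0) :
    IsPrimitiveRoot (aeval a q) p := by
  have : CharZero L := algebraRat.charZero L
  have : NeZero ((p : ℕ) : L) := ⟨by exact_mod_cast hp.ne_zero⟩
  rw [← isRoot_cyclotomic_iff, IsRoot.def, ← map_cyclotomic p (algebraMap ℚ L),
    eval_map_algebraMap, ← aeval_comp]
  obtain ⟨c, hc⟩ := hq
  rw [hc, map_mul, ha, zero_mul]

theorem NoTors_of_real (f : ℤ[X]) (hm : f.Monic) (hirr : Irreducible f) (t : ℝ)
    (ht : (toC f).IsRoot (t : ℂ)) (p : ℕ) (hp : p.Prime) (hp2 : p ≠ 2) : NoTors f p := by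
  by_contra hcon
  obtain ⟨q, hq⟩ := exists_poly f hm hirr p hp hcon
  have ht' : aeval t (toQ f) = 0 := by
    rw [root_iff]
    have h1 : eval ((t : ℝ) : ℂ) (toC f) = 0 := ht
    unfold toC at h1
    have h2 : ((eval t (f.map (Int.castRingHom ℝ)) : ℝ) : ℂ) = 0 := by
      rw [← h1, eval_map, eval_map, ← Complex.coe_algebraMap, hom_eval₂]
      congr 1
    exact_mod_cast h2
  have h3 := prim_of_poly f p hp q hq t ht'
  have hodd : Odd p := hp.odd_of_ne_two hp2
  have h4 := h3.pow_eq_one
  have h5 : aeval t q = 1 := by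
    have := hodd.strictMono_pow (R := ℝ)
    apply this.injective
    simp only [one_pow]
    exact h4
  exact h3.ne_one hp.one_lt h5

theorem exists_prim {L : Type*} [Field L] (s : Finset ℕ) (hs : ∀ p ∈ s, p.Prime)
    (h : ∀ p ∈ s, ∃ z : L, IsPrimitiveRoot z p) : ∃ z : L, IsPrimitiveRoot z (∏ p ∈ s, p) := by
  classical
  induction s using Finset.induction_on with
  | empty => exact ⟨1, by simp⟩
  | insert a s ha ih =>
    obtain ⟨z, hz⟩ := ih (fun p hp => hs p (Finset.mem_insert_of_mem hp))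
      (fun p hp => h p (Finset.mem_insert_of_mem hp))
    obtain ⟨w, hw⟩ := h a (Finset.mem_insert_self a s)
    refine ⟨w * z, ?_⟩
    rw [Finset.prod_insert ha]
    have hco : Nat.Coprime a (∏ p ∈ s, p) := by
      apply Nat.Coprime.prod_right
      intro p hp
      rw [Nat.coprime_primes (hs a (Finset.mem_insert_self a s)) (hs p (Finset.mem_insert_of_mem hp))]
      rintro rfl
      exact ha hp
    rw [IsPrimitiveRoot.iff_orderOf]
    have h1 := hw.eq_orderOf
    have h2 := hz.eq_orderOf
    rw [(Commute.all w z).orderOf_mul_eq_mul_orderOf_of_coprime (by rw [← h1, ← h2]; exact hco),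
      ← h1, ← h2]

theorem totient_prod (s : Finset ℕ) (hs : ∀ p ∈ s, p.Prime ∧ p ≠ 2) :
    2 ^ s.card ≤ Nat.totient (∏ p ∈ s, p) := by
  classical
  induction s using Finset.induction_on with
  | empty => simp
  | insert a s ha ih =>
    have hco : Nat.Coprime a (∏ p ∈ s, p) := by
      apply Nat.Coprime.prod_right
      intro p hp
      rw [Nat.coprime_primes (hs a (Finset.mem_insert_self a s)).1
        (hs p (Finset.mem_insert_of_mem hp)).1]
      rintro rfl
      exact ha hp
    rw [Finset.card_insert_of_notMem ha, Finset.prod_insert ha, Nat.totient_mul hco, pow_succ,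
      mul_comm]
    have h1 := hs a (Finset.mem_insert_self a s)
    rw [Nat.totient_prime h1.1]
    have h2 := h1.1.two_le
    have h3 := h1.2
    exact Nat.mul_le_mul (by omega) (ih fun p hp => hs p (Finset.mem_insert_of_mem hp))

theorem card_aux (f : ℤ[X]) (hm : f.Monic) (hirr : Irreducible f) (B : Finset ℕ)
    (hB : ∀ p ∈ B, p.Prime ∧ p ≠ 2 ∧ ¬ NoTors f p) {L : Type*} [Field L] [CharZero L]
    (inst : Algebra ℚ L) [FiniteDimensional ℚ L] (a : L)
    (ha : aeval a (toQ f) = 0) : 2 ^ B.card ≤ Module.finrank ℚ L := by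
  obtain ⟨z, hz⟩ := exists_prim (L := L) B (fun p hp => (hB p hp).1) (by
    intro p hp
    obtain ⟨q, hq⟩ := exists_poly f hm hirr p (hB p hp).1 (hB p hp).2.2
    exact ⟨_, prim_of_poly f p (hB p hp).1 q hq a ha⟩)
  have hpos : 0 < ∏ p ∈ B, p := Finset.prod_pos fun p hp => (hB p hp).1.pos
  have h1 := cyclotomic_eq_minpoly_rat hz hpos
  have h2 := minpoly.natDegree_le (A := ℚ) z
  have hinst : inst = DivisionRing.toRatAlgebra := Subsingleton.elim _ _
  subst hinst
  rw [← h1, natDegree_cyclotomic] at h2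
  have h3 := totient_prod B fun p hp => ⟨(hB p hp).1, (hB p hp).2.1⟩
  exact h3.trans h2

theorem card_bad_le (f : ℤ[X]) (hm : f.Monic) (hirr : Irreducible f) (B : Finset ℕ)
    (hB : ∀ p ∈ B, p.Prime ∧ p ≠ 2 ∧ ¬ NoTors f p) : 2 ^ B.card ≤ f.natDegree := by
  have hQ := toQ_irr f hm hirr
  obtain ⟨α, hα⟩ : ∃ α : ℂ, aeval α (toQ f) = 0 :=
    IsAlgClosed.exists_aeval_eq_zero ℂ (toQ f) hQ.degree_pos.ne'
  have hint : IsIntegral ℚ α := ⟨toQ f, toQ_monic f hm, by rwa [aeval_def] at hα⟩
  have hmin : minpoly ℚ α = toQ f :=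
    (minpoly.eq_of_irreducible_of_monic hQ hα (toQ_monic f hm)).symm
  have hfin := IntermediateField.adjoin.finrank hint
  have hfd : FiniteDimensional ℚ (IntermediateField.adjoin ℚ {α}) :=
    IntermediateField.adjoin.finiteDimensional hint
  have h1 := card_aux f hm hirr B hB (L := IntermediateField.adjoin ℚ {α}) inferInstance
    (IntermediateField.AdjoinSimple.gen ℚ α) (by
      rw [← hmin]
      exact IntermediateField.aeval_gen_minpoly ℚ α)
  rw [hfin, hmin] at h1
  refine h1.trans ?_
  unfold toQ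
  exact natDegree_map_le

end Pool.Agent.H51R2.LehL
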